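import Pool.Agent.Helper21.Pred.Fin

/-!
# MP_6cbef8_nt: predictions of Hecke eigenvalues and the existence of `A_f`

`(V v)` is a family of two-dimensional representations of a profinite group `G` over completions `E v`
of a number field `M` with adelically open image (in the application `G` is the Galois group of a
number field `F` and `V v` is the `v`-adic representation of a newform `f` without complex
multiplication), `T = (T l)_l` a family of representations over the `ℚ_l`, `l` prime (the Tate
modules of an abelian variety `B`), with common Frobenius polynomials over the integers of `M`.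
A prediction excludes, for every element `r` of `G` and every place `v`, some residue classes for
the trace of `V v r` (the Hecke eigenvalue, if `r` is a Frobenius element).  It is computed from the
action of `r` on ALL `T l` (all torsion points of `B`), from the determinants of the `V w r`, and
from the `V w r` for all places `w` before `v` in a numbering of the places.  Its share at `v` is the
proportion of excluded classes.  The following are equivalent: (1), (2) `V v` is potentially contained
in `T (ℓ v)`, for one or for every place `v` (so that the abelian variety `A_f` exists, as a factor of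
`B` over a finite extension); (3) there is a prediction which uses only `T` and the determinants,
excludes all but at most `d = dim T` classes at every place, and is never wrong for `r` in an open
subgroup; (4) there is a prediction which for a set of `r` of positive Haar measure is better than
chance by a constant factor: the sums of the shares over the first `N` places tend to infinity, and
for infinitely many `N` the number of errors at these places is at most `c < 1` times this sum.
So there is a gap: if `A_f` does not exist, then no prediction is better than pure chance.
-/

set_option autoImplicit false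
open NumberField Polynomial MeasureTheory Pool.Agent.Helper37.Af Pool.Agent.Helper37.Fd
  Pool.Agent.Helper37.Ad Pool.Agent.Helper37.Ub Pool.Agent.Helper37.Ff Pool.Agent.Helper21.Pred

namespace Pool.Agent.Helper55.Kept.PredictionsArchive

theorem result
    -- the field of coefficients
    {M : Type} [Field M] [NumberField M]
    -- infinitely many places `v` of residue characteristic `ℓ v`, finitely many for every prime
    {Λ : Type} [Infinite Λ] (ℓ : Λ → ℕ) [∀ v, Fact (ℓ v).Prime] (hℓ : ∀ l, {v | ℓ v = l}.Finite)
    -- the local fields `E v`, of bounded degree over `ℚ_(ℓ v)`, with embeddings of `M`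
    (E : Λ → Type) [∀ v, NontriviallyNormedField (E v)] [∀ v, IsUltrametricDist (E v)]
    [∀ v, NormedAlgebra ℚ_[ℓ v] (E v)] [∀ v, FiniteDimensional ℚ_[ℓ v] (E v)] (a : ℕ)
    (ha : ∀ v, Module.finrank ℚ_[ℓ v] (E v) ≤ a) (j : ∀ v, M →+* E v)
    -- representatives of their residue classes
    (R : ∀ v, Finset (E v)) (hR : ∀ v, IsReps (R v))
    -- finite extensions `F v` of the `E v`
    (F : Λ → Type) [∀ v, NontriviallyNormedField (F v)] [∀ v, IsUltrametricDist (F v)]
    [∀ v, NormedAlgebra ℚ_[ℓ v] (F v)] [∀ v, FiniteDimensional ℚ_[ℓ v] (F v)]
    (φ : ∀ v, E v →ₐ[ℚ_[ℓ v]] F v)
    -- a profinite group with Haar measure `μ`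
    {G : Type} [Group G] [TopologicalSpace G] [IsTopologicalGroup G] [CompactSpace G]
    [TotallyDisconnectedSpace G] [MeasurableSpace G] [BorelSpace G] (μ : Measure G)
    [μ.IsHaarMeasure]
    -- integral two-dimensional representations over the `E v` with adelically open image
    (V : ∀ v, G →* GL (Fin 2) (E v)) (hV : ∀ v, Continuous (V v))
    (hVi : ∀ v x s t, ‖(V v x : Matrix (Fin 2) (Fin 2) (E v)) s t‖ ≤ 1)
    (hopen : AdelicallyOpen ⊤ V)
    -- a system of representations over the `ℚ_l`, for all primes `l`
    {d : ℕ} (T : ∀ (l : ℕ) [Fact l.Prime], G →* GL (Fin d) ℚ_[l]) (hT : IsSystem ℓ φ V T)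
    -- the Frobenius polynomials
    (f g : G → (𝓞 M)[X]) (hD : AlmostMatching ℓ j V T f g) :
    List.TFAE [
      -- potential containment, at one place
      ∃ v, ContainedAt ℓ φ V T v,
      -- potential containment, at all places
      ∀ v, ContainedAt ℓ φ V T v,
      -- `T` and the determinants leave at most `d` residue classes for every trace
      ∃ X : ∀ v, G → Finset (E v), IsPrediction V T R (fun _ => ∅) X ∧
        ∃ U : Subgroup G, IsOpen (U : Set G) ∧ ∀ r ∈ U, ∀ v,
          (R v).card ≤ (X v r).card + d ∧ ¬ Wrong V X r v,
      -- some prediction is better than chance by a constant factor, on a set of positive measure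
      ∃ (e : ℕ ≃ Λ) (c : ℝ) (X : ∀ v, G → Finset (E v)), c < 1 ∧
        IsPrediction V T R (fun v => {w | e.symm w < e.symm v}) X ∧
        μ {r | BeatsChance V R X e c r} ≠ 0] :=
  predictions ℓ hℓ E a ha j R hR F φ μ V hV hVi hopen T hT f g hD

end Pool.Agent.Helper55.Kept.PredictionsArchive
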